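import Pool.Agent.Helper390.CubeSection

open MeasureTheory Set
open scoped ENNReal

namespace Pool.Agent.Results.MP_484e46_gt.MinPerimeter

open Pool.Agent.Helper390.CubeSection

/-- The cube `[-1,1]^n` in `ℝ^n`. -/
def cube (n : ℕ) : Set (EuclideanSpace ℝ (Fin n)) := {x | ∀ i, |x i| ≤ 1}

/-- The central section of the cube by the hyperplane `u^⊥`. -/
def cubeSection (n : ℕ) (u : EuclideanSpace ℝ (Fin n)) : Set (EuclideanSpace ℝ (Fin n)) :=
  {x | x ∈ cube n ∧ inner ℝ x u = 0}

/-- The perimeter `P(u)` of the section `u^⊥ ∩ [-1,1]^n`: the `(n-2)`-dimensional Hausdorff measure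
(normalised to agree with Lebesgue measure on `(n-2)`-dimensional Euclidean spaces) of the relative
boundary of the section. -/
noncomputable def perimeter (n : ℕ) (u : EuclideanSpace ℝ (Fin n)) : ℝ≥0∞ :=
  μHE[n - 2] (intrinsicFrontier ℝ (cubeSection n u))

/-- The relative boundary of the section consists of its points with some coordinate `± 1`. -/
lemma intrinsicFrontier_cubeSection (n : ℕ) (u : EuclideanSpace ℝ (Fin n)) :
    intrinsicFrontier ℝ (cubeSection n u) = bdry u := by
  have hclosed : IsClosed (cubeSection n u) := by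
    have : cubeSection n u = (⋂ i, {x : EuclideanSpace ℝ (Fin n) | |x i| ≤ 1}) ∩
        {x | inner ℝ x u = 0} := by
      ext x; simp [cubeSection, cube]
    rw [this]
    apply IsClosed.inter
    · exact isClosed_iInter fun i => isClosed_le (by fun_prop) continuous_const
    · exact isClosed_eq (by fun_prop) continuous_const
  have hspan : ∀ y ∈ affineSpan ℝ (cubeSection n u), inner ℝ y u = 0 := by
    intro y hy
    have hle : affineSpan ℝ (cubeSection n u) ≤ ((ℝ ∙ u)ᗮ).toAffineSubspace := by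
      rw [affineSpan_le]
      intro x hx
      exact Submodule.mem_orthogonal_singleton_iff_inner_left.2 hx.2
    exact Submodule.mem_orthogonal_singleton_iff_inner_left.1 (hle hy)
  have h0 : (0 : EuclideanSpace ℝ (Fin n)) ∈ cubeSection n u := by
    simp [cubeSection, cube]
  unfold intrinsicFrontier
  rw [(hclosed.preimage continuous_subtype_val).frontier_eq]
  ext x
  constructor
  · rintro ⟨y, ⟨h1, h2⟩, rfl⟩
    refine ⟨h1.2, h1.1, ?_⟩
    by_contra hcon
    push Not at hcon
    apply h2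
    rw [mem_interior]
    refine ⟨⋂ i, {z : affineSpan ℝ (cubeSection n u) | |(z : EuclideanSpace ℝ (Fin n)) i| < 1},
      ?_, ?_, ?_⟩
    · intro z hz
      exact ⟨fun i => (mem_iInter.1 hz i).le, hspan _ z.2⟩
    · exact isOpen_iInter_of_finite fun i => isOpen_lt (by fun_prop) continuous_const
    · exact mem_iInter.2 fun i => lt_of_le_of_ne (h1.1 i) (hcon i)
  · rintro ⟨h1, h2, i, hi⟩
    have hx : x ∈ cubeSection n u := ⟨h2, h1⟩
    have hxs : x ∈ affineSpan ℝ (cubeSection n u) := subset_affineSpan ℝ _ hx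
    refine ⟨⟨x, hxs⟩, ⟨hx, ?_⟩, rfl⟩
    intro hint
    have hline : ∀ t : ℝ, t • x ∈ affineSpan ℝ (cubeSection n u) := by
      intro t
      have := AffineMap.lineMap_mem t (subset_affineSpan ℝ _ h0) hxs
      rwa [AffineMap.lineMap_apply_module, smul_zero, zero_add] at this
    have hcont : Continuous (fun t : ℝ => (⟨t • x, hline t⟩ : affineSpan ℝ (cubeSection n u))) := by
      fun_prop
    have hev : ∀ᶠ t in nhds (1:ℝ), (⟨t • x, hline t⟩ : affineSpan ℝ (cubeSection n u)) ∈
        interior ((↑) ⁻¹' cubeSection n u) := by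
      apply hcont.continuousAt.eventually_mem
      have : (⟨(1:ℝ) • x, hline 1⟩ : affineSpan ℝ (cubeSection n u)) = ⟨x, hxs⟩ := by
        apply Subtype.ext; simp
      rw [this]
      exact isOpen_interior.mem_nhds hint
    have hev2 : ∀ᶠ t in nhdsWithin (1:ℝ) (Ioi 1), 1 < t ∧
        (⟨t • x, hline t⟩ : affineSpan ℝ (cubeSection n u)) ∈
        interior ((↑) ⁻¹' cubeSection n u) := by
      filter_upwards [self_mem_nhdsWithin, hev.filter_mono nhdsWithin_le_nhds] with t ht1 ht2
      exact ⟨ht1, ht2⟩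
    obtain ⟨t, ht1, ht2⟩ := hev2.exists
    have h3 : |(t • x) i| ≤ 1 := (interior_subset ht2).1 i
    rw [PiLp.smul_apply, smul_eq_mul, abs_mul, hi, mul_one, abs_of_pos (by linarith)] at h3
    linarith

lemma perimeter_eq (n : ℕ) (u : EuclideanSpace ℝ (Fin n)) :
    perimeter n u = μHE[n - 2] (bdry u) := by
  unfold perimeter
  rw [intrinsicFrontier_cubeSection]

/-- For every `n ≥ 2` the least perimeter of a central hyperplane section of the cube `[-1,1]^n` is
`(n-1) 2^(n-1)`. For `n = 2` every unit vector attains it, for `n ≥ 3` exactly the vectors `± e_i`. -/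
theorem result (n : ℕ) (hn : 2 ≤ n) :
    IsLeast (perimeter n '' {u : EuclideanSpace ℝ (Fin n) | ‖u‖ = 1})
      (((n - 1 : ℕ) : ℝ≥0∞) * 2 ^ (n - 1)) ∧
    ∀ u : EuclideanSpace ℝ (Fin n), ‖u‖ = 1 →
      (perimeter n u = ((n - 1 : ℕ) : ℝ≥0∞) * 2 ^ (n - 1) ↔
        n = 2 ∨ ∃ i, u = EuclideanSpace.single i 1 ∨ u = EuclideanSpace.single i (-1)) := by
  have h := main n hn
  simp only [← perimeter_eq] at h
  refine ⟨⟨?_, ?_⟩, h.2⟩
  · refine ⟨EuclideanSpace.single ⟨0, by omega⟩ 1, by simp, ?_⟩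
    exact (h.2 _ (by simp)).2 (Or.inr ⟨_, Or.inl rfl⟩)
  · rintro _ ⟨u, hu, rfl⟩
    exact h.1 u hu

end Pool.Agent.Results.MP_484e46_gt.MinPerimeter
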